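import Pool.Agent.Helper23.LIN.Fin
import Pool.Agent.Helper23.LIN.Strand

/-!
# Regularity of the powers of the edge ideal of a gap-free graph

`kfc_ind`: for `r ≥ 2 q` the regularity of `I(G)^q` is at most `r` if and only if the complexes of the independent
subsets of `W` have no homology `Ex i` for `i ≥ r + 1 - q` (all `W`).
`reg_pow`: `reg I(G)^q = max (2 q) (reg I(G) + q - 1)`.
-/

set_option linter.unusedSectionVars false

namespace Pool.Agent.RG

open MvPolynomial Pool.Agent.LQ Pool.Agent.LQ.T1 Pool.Agent.LIN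

section general

variable {V : Type*} [Fintype V] [LinearOrder V] {K : Type*} [Field K]

private theorem entry_le75 {G : SimpleGraph V} : ∀ {q : ℕ} {u : V →₀ ℕ}, u ∈ P G q → ∀ v, u v ≤ q
  | 0, u, h, v => by
      have : u = 0 := h
      subst this
      simp
  | q + 1, u, ⟨Y, hY, a, b, hab, e⟩, v => by
      subst e
      have h1 := entry_le75 hY v
      have hne : a ≠ b := hab.ne
      have h2 : (ev a b) v ≤ 1 := by
        unfold ev
        rw [Finsupp.add_apply, Finsupp.single_apply, Finsupp.single_apply]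
        split_ifs with h3 h4
        · exact absurd (h3.trans h4.symm) hne
        all_goals omega
      rw [Finsupp.add_apply]
      omega

/-- the complex of all independent subsets of `W` -/
def indC (G : SimpleGraph V) (W : Finset V) : Set (Finset V) := {F | F ⊆ W ∧ Ind G F}

private theorem y_low75 {G : SimpleGraph V} {b : V → ℕ} {W : Finset V} {t : ℤ}
    (ht : t ≤ -(ws b W : ℤ)) : Y G b W t = indC G W := by
  ext F
  constructor
  · exact fun h => ⟨Y_sub h, Y_ind h⟩
  · rintro ⟨h1, h2⟩
    refine ⟨F, Finset.Subset.refl _, h1, h2, ht.trans ?_⟩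
    unfold dl
    have h3 : ws b (nb G F ∩ W) ≤ ws b W := ws_mono_set b Finset.inter_subset_right
    have h4 : (ws b (nb G F ∩ W) : ℤ) ≤ ws b W := by exact_mod_cast h3
    have h5 : (0 : ℤ) ≤ ws b F := Int.natCast_nonneg _
    linarith

private theorem main75 {G : SimpleGraph V} (hG : GF G) {q r : ℕ} (hq : 1 ≤ q) (hr : 2 * q ≤ r) :
    StpC K (fun m => ¬ MemP G q m) q r ↔
      ∀ (W : Finset V) (i : ℕ), r + 1 - q ≤ i → Ex K (indC G W) i := by
  constructor
  · intro h W i hi
    rcases W.eq_empty_or_nonempty with rfl | ⟨v, hv⟩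
    · refine ex_of_card fun σ hσ h1 => ?_
      have h2 : σ = ∅ := Finset.subset_empty.1 hσ.1
      rw [h2, Finset.card_empty] at h1
      omega
    · set b : V → ℕ := fun u => if u = v then q - 1 else 0 with hb
      have hws : ws b W = q - 1 := by
        unfold ws
        rw [Finset.sum_eq_single v]
        · simp only [hb, if_pos]
        · intro u _ hu
          simp only [hb, if_neg hu]
        · exact fun h => absurd hv h
      have hb0 : ∀ u, u ∉ W → b u = 0 := by
        intro u hu
        have : u ≠ v := fun h => hu (h ▸ hv)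
        simp only [hb, if_neg this]
      have h1 := h W b hb0 i (by rw [hws]; omega)
      rw [stp_eq_Y hG hq hb0, y_low75 (by rw [hws]; omega)] at h1
      exact h1
  · intro h W b hb i hi
    rw [stp_eq_Y hG hq hb]
    rcases Nat.lt_or_ge (ws b W) q with h1 | h1
    · rw [y_low75 (by omega)]
      exact h W i (by omega)
    · refine tgen hG W _ ?_ (by omega) i (by omega)
      exact ⟨(ws b W : ℤ) - q, by ring⟩

theorem memP_mono {G : SimpleGraph V} {q : ℕ} {m m' : V → ℕ} (h : ∀ v, m v ≤ m' v)
    (hm : MemP G q m) : MemP G q m' := by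
  obtain ⟨u, hu, h1⟩ := hm
  exact ⟨u, hu, fun v => (h1 v).trans (h v)⟩

/-- `reg I(G)^q ≤ r` in terms of the independence complexes of the induced subgraphs -/
theorem kfc_ind {G : SimpleGraph V} (hG : GF G) {q r : ℕ} (hq : 1 ≤ q) (hr : 2 * q ≤ r) :
    KFC K {m | MemP G q m} r ↔
      ∀ (W : Finset V) (i : ℕ), r + 1 - q ≤ i → Ex K (indC G W) i := by
  rw [kf_iff (M := {m | MemP G q m}) (fun m m' h hm => memP_mono h hm) (by omega : 1 ≤ r)]
  have h1 := bridge (K := K) (Pr := fun m => ¬ MemP G q m)
    (fun m m' h hm hm' => hm (memP_mono h hm')) hq (by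
      intro m v hv hm hm'
      apply hm
      obtain ⟨u, hu, h1⟩ := hm'
      refine ⟨u, hu, fun w => ?_⟩
      by_cases hw : w = v
      · rw [hw]
        exact (entry_le75 hu v).trans hv
      · have h2 := h1 w
        rwa [Function.update_of_ne hw] at h2) r
  exact h1.trans (main75 hG hq hr)

theorem mem_pow_iff {G : SimpleGraph V} {q : ℕ} (f : MvPolynomial V K) :
    f ∈ edgeIdeal K G ^ q ↔ ∀ m ∈ f.support, (⇑m) ∈ {m : V → ℕ | MemP G q m} := by
  rw [pow_edgeIdeal, mem_ideal_span_monomial_image]
  rfl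

/-- the lowest degree -/
theorem kfc_low {G : SimpleGraph V} (hE : ∃ a b, G.Adj a b) {q r : ℕ}
    (h : KFC K {m | MemP G q m} r) : 2 * q ≤ r := by
  by_contra hlt
  obtain ⟨a, b, hab⟩ := hE
  have hne : a ≠ b := hab.ne
  obtain ⟨u, hu, hud⟩ : ∃ u ∈ P G q, u.degree = 2 * q := by
    clear h hlt
    induction q with
    | zero => exact ⟨0, rfl, by simp⟩
    | succ q ih =>
        obtain ⟨u, hu, -⟩ := ih
        refine ⟨u + ev a b, ⟨u, hu, a, b, hab, rfl⟩, ?_⟩
        exact degree_of_mem_P ⟨u, hu, a, b, hab, rfl⟩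
  have hws : ws u Finset.univ = 2 * q := by
    rw [← hud, Finsupp.degree_eq_sum]
    rfl
  have h1 := h u 0 (by rw [hws]; omega)
  have hmem : (∅ : Finset V) ∈ KF {m | MemP G q m} u := by
    refine ⟨fun v hv => absurd hv (Finset.notMem_empty v), ?_⟩
    refine ⟨u, hu, fun v => ?_⟩
    simp
  obtain ⟨d, hd, hbd⟩ := h1 (fun σ => if σ = ∅ then 1 else 0) (by
    intro σ hσ
    by_cases h2 : σ = ∅
    · subst h2
      exact ⟨hmem, rfl⟩
    · exact absurd (if_neg h2) hσ) (by
    funext τ
    unfold bd
    refine Finset.sum_eq_zero fun v _ => ?_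
    have h3 : (fun σ : Finset V => if σ = ∅ then (1 : K) else 0) (insert v τ) = 0 :=
      if_neg (Finset.insert_ne_empty v τ)
    rw [h3, mul_zero])
  have hd0 : d = 0 := by
    funext σ
    by_contra h2
    obtain ⟨⟨h3, w, hw, h4⟩, h5⟩ := hd σ h2
    rw [zero_add, Finset.card_eq_one] at h5
    obtain ⟨v, rfl⟩ := h5
    have h6 := h3 v (Finset.mem_singleton_self v)
    have h7 : w.degree = 2 * q := degree_of_mem_P hw
    have h8 : w.degree < u.degree := by
      rw [Finsupp.degree_eq_sum, Finsupp.degree_eq_sum]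
      refine Finset.sum_lt_sum (fun x _ => (h4 x).trans (Nat.sub_le _ _)) ⟨v, Finset.mem_univ v, ?_⟩
      have h9 := h4 v
      simp only [Finset.mem_singleton, if_pos] at h9
      omega
    omega
  rw [hd0, bd_zero] at hbd
  have h2 := congrFun hbd ∅
  simp at h2

end general

end Pool.Agent.RG
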