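import Pool.Agent.Helper23.LIN.Kosz

/-!
# From graded free resolutions to Koszul homology, with shifts

`HomS a e f`: `f` is homogeneous of degree `e` in `⊕ S(-a k)`. `KChS`, `LKS`: Koszul chains and vanishing of the
Koszul homology, for submodules of `⊕ S(-a k)`.
`convS`: if `M` is generated by elements of degrees `b k ≤ r` and the syzygy module has no Koszul homology
`H_(i-1)` with coefficients in degrees `> r + 1`, then `M` has no `H_i` with coefficients in degrees `> r`.
`kos_of_res`: a graded free resolution of `J` with degrees `≤ r + i` gives `LinKosAt (ofIdeal J) r i` for all `i`.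
-/

set_option linter.unusedSectionVars false

namespace Pool.Agent.RG

open MvPolynomial Pool.Agent.LQ Pool.Agent.LQ.T1 Pool.Agent.LIN

variable {V : Type*} [Fintype V] [LinearOrder V] {K : Type*} [Field K]

section shifts

variable {ι : Type*}

/-- homogeneous of degree `e` in `⊕ S(-a k)` -/
def HomS (a : ι → ℕ) (e : ℕ) (f : ι → MvPolynomial V K) : Prop :=
  ∀ k m, coeff m (f k) ≠ 0 → m.degree + a k = e

/-- Koszul chains -/
def KChS (a : ι → ℕ) (M : Submodule (MvPolynomial V K) (ι → MvPolynomial V K)) (i e : ℕ)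
    (z : Finset V → ι → MvPolynomial V K) : Prop :=
  ∀ σ, (σ.card ≠ i → z σ = 0) ∧ z σ ∈ M ∧ HomS a e (z σ)

/-- no Koszul homology in degrees `> r` -/
def LKS (a : ι → ℕ) (M : Submodule (MvPolynomial V K) (ι → MvPolynomial V K)) (r i : ℕ) : Prop :=
  ∀ e, r ≤ e → ∀ z, KChS a M i (e + 1) z → kbd z = 0 → ∃ w, KChS a M (i + 1) e w ∧ kbd w = z

theorem deg_hom {e : ℕ} {f : MvPolynomial V K} (hf : f.IsHomogeneous e) {m : V →₀ ℕ}
    (hm : coeff m f ≠ 0) : m.degree = e := by
  have h1 := hf hm
  rw [← h1, Finsupp.degree_eq_weight_one (R := ℕ)]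
  rfl

theorem hom_of_deg {e : ℕ} {f : MvPolynomial V K} (hf : ∀ m, coeff m f ≠ 0 → m.degree = e) :
    f.IsHomogeneous e := by
  intro m hm
  rw [← hf m hm, Finsupp.degree_eq_weight_one (R := ℕ)]
  rfl

theorem homS_zero (a : ι → ℕ) (e : ℕ) : HomS a e (0 : ι → MvPolynomial V K) := by
  intro k m hm
  exact absurd (coeff_zero m) hm

theorem homS_sub {a : ι → ℕ} {e : ℕ} {f g : ι → MvPolynomial V K} (hf : HomS a e f)
    (hg : HomS a e g) : HomS a e (f - g) := by
  intro k m hm
  rw [Pi.sub_apply, coeff_sub] at hm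
  by_cases h : coeff m (f k) = 0
  · refine hg k m fun h2 => hm ?_
    rw [h, h2, sub_zero]
  · exact hf k m h

theorem homS_hom {a : ι → ℕ} {e : ℕ} {f : ι → MvPolynomial V K} (hf : HomS a e f) (k : ι) :
    f k = 0 ∨ (a k ≤ e ∧ (f k).IsHomogeneous (e - a k)) := by
  by_cases h : f k = 0
  · exact Or.inl h
  · obtain ⟨m, hm⟩ := MvPolynomial.ne_zero_iff.1 h
    have h1 := hf k m hm
    refine Or.inr ⟨by omega, hom_of_deg fun m' hm' => ?_⟩
    have h2 := hf k m' hm'
    omega

theorem homS_of {a : ι → ℕ} {e : ℕ} {f : ι → MvPolynomial V K}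
    (h : ∀ k, f k = 0 ∨ (a k ≤ e ∧ (f k).IsHomogeneous (e - a k))) : HomS a e f := by
  intro k m hm
  rcases h k with h1 | ⟨h1, h2⟩
  · rw [h1] at hm
    exact absurd (coeff_zero m) hm
  · have := deg_hom h2 hm
    omega

theorem homS_unit {e : ℕ} {f : Unit → MvPolynomial V K} :
    HomS (fun _ => 0) e f ↔ ∀ k, (f k).IsHomogeneous e := by
  constructor
  · intro h k
    exact hom_of_deg fun m hm => h k m hm
  · intro h k m hm
    exact deg_hom (h k) hm

/-- the differential raises the degree of the coefficients -/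
theorem homS_kbd {a : ι → ℕ} {e : ℕ} {y : Finset V → ι → MvPolynomial V K}
    (hy : ∀ σ, HomS a e (y σ)) (τ : Finset V) : HomS a (e + 1) (kbd y τ) := by
  intro k m hm
  unfold kbd at hm
  rw [coeff_sum] at hm
  obtain ⟨v, -, hv⟩ := Finset.exists_ne_zero_of_sum_ne_zero hm
  rw [mul_assoc, coeff_C_mul, coeff_X_mul'] at hv
  by_cases h : v ∈ m.support
  · rw [if_pos h] at hv
    have h1 := hy (insert v τ) k _ (right_ne_zero_of_mul hv)
    have h2 : (m - Finsupp.single v 1) + Finsupp.single v 1 = m := by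
      apply tsub_add_cancel_of_le
      rw [Finsupp.single_le_iff]
      rw [Finsupp.mem_support_iff] at h
      omega
    have h3 : m.degree = (m - Finsupp.single v 1).degree + 1 := by
      conv_lhs => rw [← h2]
      rw [map_add, Finsupp.degree_single]
    omega
  · rw [if_neg h, mul_zero] at hv
    exact absurd rfl hv

theorem kbd_zero' : kbd (0 : Finset V → ι → MvPolynomial V K) = 0 := by
  funext τ k
  unfold kbd
  simp

theorem kbd_sub' (y z : Finset V → ι → MvPolynomial V K) : kbd (y - z) = kbd y - kbd z := by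
  funext τ k
  simp only [kbd, Pi.sub_apply, ← Finset.sum_sub_distrib, mul_sub]

/-- exactness of the Koszul complex of a graded free module -/
theorem exS {a : ι → ℕ} {i e : ℕ} {z : Finset V → ι → MvPolynomial V K}
    (hz : KChS a ⊤ i (e + 1) z) (h : kbd z = 0) (h0 : i = 0 → ∀ k, a k ≤ e) :
    ∃ w, KChS a ⊤ (i + 1) e w ∧ kbd w = z := by
  have key : ∀ k, ∃ w : Finset V → Unit → MvPolynomial V K,
      (∀ σ, (σ.card ≠ i + 1 → w σ = 0) ∧ ∀ m, coeff m (w σ ()) ≠ 0 → m.degree + a k = e) ∧
      ∀ τ, kbd w τ () = z τ k := by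
    intro k
    have hcy : kbd (fun σ (_ : Unit) => z σ k) = 0 := by
      funext τ u
      exact congrFun (congrFun h τ) k
    have zero_case : (∀ σ, z σ k = 0) → ∃ w : Finset V → Unit → MvPolynomial V K,
        (∀ σ, (σ.card ≠ i + 1 → w σ = 0) ∧ ∀ m, coeff m (w σ ()) ≠ 0 → m.degree + a k = e) ∧
        ∀ τ, kbd w τ () = z τ k := by
      intro h1
      refine ⟨0, fun σ => ⟨fun _ => rfl, fun m hm => absurd (coeff_zero m) hm⟩, fun τ => ?_⟩
      rw [kbd_zero', h1]
      rfl
    rcases Nat.lt_or_ge e (a k) with h1 | h1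
    · apply zero_case
      rcases Nat.eq_or_lt_of_le (show e + 1 ≤ a k from h1) with h2 | h2
      · obtain ⟨j, rfl⟩ : ∃ j, i = j + 1 := by
          refine ⟨i - 1, ?_⟩
          by_contra h3
          have := h0 (by omega) k
          omega
        have h3 : KCh (⊤ : Submodule (MvPolynomial V K) (Unit → MvPolynomial V K)) (j + 1) 0
            (fun σ (_ : Unit) => z σ k) := by
          intro σ
          refine ⟨fun h4 => ?_, Submodule.mem_top, fun _ => hom_of_deg fun m hm => ?_⟩
          · funext u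
            exact congrFun ((hz σ).1 h4) k
          · have := (hz σ).2.2 k m hm
            omega
        have h4 := kosz_zero h3 hcy
        intro σ
        exact congrFun (congrFun h4 σ) ()
      · intro σ
        by_contra h3
        obtain ⟨m, hm⟩ := MvPolynomial.ne_zero_iff.1 h3
        have := (hz σ).2.2 k m hm
        omega
    · have h3 : KCh (⊤ : Submodule (MvPolynomial V K) (Unit → MvPolynomial V K)) i (e - a k + 1)
          (fun σ (_ : Unit) => z σ k) := by
        intro σ
        refine ⟨fun h4 => ?_, Submodule.mem_top, fun _ => hom_of_deg fun m hm => ?_⟩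
        · funext u
          exact congrFun ((hz σ).1 h4) k
        · have := (hz σ).2.2 k m hm
          omega
      obtain ⟨w, hw, hw2⟩ := kosz_exact h3 hcy
      refine ⟨w, fun σ => ⟨(hw σ).1, fun m hm => ?_⟩, fun τ => ?_⟩
      · have := deg_hom ((hw σ).2.2 ()) hm
        omega
      · rw [hw2]
  choose w hw1 hw2 using key
  refine ⟨fun σ k => w k σ (), fun σ => ⟨fun h1 => ?_, Submodule.mem_top, fun k m hm => ?_⟩, ?_⟩
  · funext k
    show w k σ () = 0
    rw [(hw1 k σ).1 h1]
    rfl
  · exact (hw1 k σ).2 m hm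
  · funext τ k
    rw [← hw2 k τ]
    rfl

private lemma hc_mul {p q : MvPolynomial V K} {d : ℕ} (hq : q.IsHomogeneous d) (e : ℕ) :
    homogeneousComponent (e + d) (p * q) = homogeneousComponent e p * q := by
  have h1 : ∀ i, homogeneousComponent (e + d) (homogeneousComponent i p * q)
      = if i = e then homogeneousComponent i p * q else 0 := by
    intro i
    have h2 : (homogeneousComponent i p * q).IsHomogeneous (i + d) :=
      (homogeneousComponent_isHomogeneous i p).mul hq
    rw [homogeneousComponent_of_mem h2]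
    by_cases h : i = e
    · subst h
      rw [if_pos rfl, if_pos rfl]
    · rw [if_neg h, if_neg (fun h' => h (by omega))]
  have h3 : homogeneousComponent (e + d) (p * q)
      = ∑ i ∈ Finset.range (p.totalDegree + 1),
        homogeneousComponent (e + d) (homogeneousComponent i p * q) := by
    rw [← map_sum, ← Finset.sum_mul, sum_homogeneousComponent]
  rw [h3, Finset.sum_congr rfl fun i _ => h1 i, Finset.sum_ite_eq']
  split_ifs with h
  · rfl
  · rw [homogeneousComponent_eq_zero, zero_mul]
    rw [Finset.mem_range] at h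
    omega

private lemma hc_mul_low {p q : MvPolynomial V K} {d : ℕ} (hq : q.IsHomogeneous d) {e : ℕ}
    (he : e < d) : homogeneousComponent e (p * q) = 0 := by
  have h1 : ∀ i, homogeneousComponent e (homogeneousComponent i p * q) = 0 := by
    intro i
    have h2 : (homogeneousComponent i p * q).IsHomogeneous (i + d) :=
      (homogeneousComponent_isHomogeneous i p).mul hq
    rw [homogeneousComponent_of_mem h2, if_neg (by omega)]
  have h3 : homogeneousComponent e (p * q)
      = ∑ i ∈ Finset.range (p.totalDegree + 1),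
        homogeneousComponent e (homogeneousComponent i p * q) := by
    rw [← map_sum, ← Finset.sum_mul, sum_homogeneousComponent]
  rw [h3, Finset.sum_congr rfl fun i _ => h1 i, Finset.sum_const_zero]

/-- homogeneous component with shifts -/
noncomputable def hcS (b e : ℕ) (v : MvPolynomial V K) : MvPolynomial V K :=
  if b ≤ e then homogeneousComponent (e - b) v else 0

theorem hcS_sum {κ : Type*} (s : Finset κ) (b e : ℕ) (f : κ → MvPolynomial V K) :
    hcS b e (∑ k ∈ s, f k) = ∑ k ∈ s, hcS b e (f k) := by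
  unfold hcS
  split_ifs
  · exact map_sum _ _ _
  · rw [Finset.sum_const_zero]

theorem hcS_mul {a : ι → ℕ} {b : ℕ} {g : ι → MvPolynomial V K} (hg : HomS a b g) (e : ℕ)
    (v : MvPolynomial V K) (j : ι) : hcS (a j) e (v * g j) = hcS b e v * g j := by
  rcases homS_hom hg j with h | ⟨h1, h2⟩
  · rw [h, mul_zero, mul_zero]
    unfold hcS
    split_ifs
    · exact map_zero _
    · rfl
  · unfold hcS
    by_cases h3 : b ≤ e
    · rw [if_pos (h1.trans h3), if_pos h3, ← hc_mul h2, show e - b + (b - a j) = e - a j by omega]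
    · rw [if_neg h3, zero_mul]
      by_cases h4 : a j ≤ e
      · rw [if_pos h4]
        exact hc_mul_low h2 (by omega)
      · rw [if_neg h4]

theorem hcS_self {a : ι → ℕ} {e : ℕ} {f : ι → MvPolynomial V K} (hf : HomS a e f) (j : ι) :
    hcS (a j) e (f j) = f j := by
  unfold hcS
  rcases homS_hom hf j with h | ⟨h1, h2⟩
  · rw [h]
    split_ifs
    · exact map_zero _
    · rfl
  · rw [if_pos h1, homogeneousComponent_eq_self h2]

theorem hcS_hom (b : ι → ℕ) (e : ℕ) (v : ι → MvPolynomial V K) :
    HomS b e (fun k => hcS (b k) e (v k)) := by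
  apply homS_of
  intro k
  show hcS (b k) e (v k) = 0 ∨ (b k ≤ e ∧ (hcS (b k) e (v k)).IsHomogeneous (e - b k))
  unfold hcS
  by_cases h : b k ≤ e
  · rw [if_pos h]
    exact Or.inr ⟨h, homogeneousComponent_isHomogeneous _ _⟩
  · rw [if_neg h]
    exact Or.inl rfl

theorem comb_apply' {n : ℕ} (g : Fin n → ι → MvPolynomial V K)
    (v : Fin n → MvPolynomial V K) (j : ι) : (∑ k, v k • g k) j = ∑ k, v k * g k j := by
  rw [Finset.sum_apply]
  rfl

/-- homogeneous lifts -/
theorem liftS {n : ℕ} {a : ι → ℕ} {b : Fin n → ℕ} {g : Fin n → ι → MvPolynomial V K}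
    (hg : ∀ k, HomS a (b k) (g k)) {e : ℕ} {f : ι → MvPolynomial V K}
    (hf : f ∈ Submodule.span (MvPolynomial V K) (Set.range g)) (hfe : HomS a e f) :
    ∃ y : Fin n → MvPolynomial V K, HomS b e y ∧ ∑ k, y k • g k = f := by
  rw [Submodule.mem_span_range_iff_exists_fun] at hf
  obtain ⟨v, hv⟩ := hf
  refine ⟨fun k => hcS (b k) e (v k), hcS_hom b e v, ?_⟩
  funext j
  rw [comb_apply', ← hcS_self hfe j, ← hv, comb_apply', hcS_sum]
  exact Finset.sum_congr rfl fun k _ => (hcS_mul (hg k) e (v k) j).symm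

theorem homS_comb {n : ℕ} {a : ι → ℕ} {b : Fin n → ℕ} {g : Fin n → ι → MvPolynomial V K}
    (hg : ∀ k, HomS a (b k) (g k)) {e : ℕ} {y : Fin n → MvPolynomial V K} (hy : HomS b e y) :
    HomS a e (∑ k, y k • g k) := by
  intro j m hm
  rw [comb_apply', coeff_sum] at hm
  obtain ⟨k, -, hk⟩ := Finset.exists_ne_zero_of_sum_ne_zero hm
  rw [coeff_mul] at hk
  obtain ⟨⟨p, q⟩, hpq, h1⟩ := Finset.exists_ne_zero_of_sum_ne_zero hk
  replace hpq : p + q = m := Finset.HasAntidiagonal.mem_antidiagonal.1 hpq
  have h2 := hy k p (left_ne_zero_of_mul h1)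
  have h3 := hg k j q (right_ne_zero_of_mul h1)
  have h4 : m.degree = p.degree + q.degree := by
    rw [← hpq, map_add]
  omega

theorem kbd_comb' {n : ℕ} (g : Fin n → ι → MvPolynomial V K)
    (y : Finset V → Fin n → MvPolynomial V K) (τ : Finset V) :
    kbd (fun σ => ∑ k, y σ k • g k) τ = ∑ k, kbd y τ k • g k := by
  funext j
  rw [comb_apply']
  simp only [kbd, comb_apply', Finset.mul_sum, Finset.sum_mul]
  rw [Finset.sum_comm]
  refine Finset.sum_congr rfl fun k _ => Finset.sum_congr rfl fun v _ => ?_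
  ring

theorem convS {n : ℕ} {a : ι → ℕ} {b : Fin n → ℕ} {g : Fin n → ι → MvPolynomial V K}
    (hg : ∀ k, HomS a (b k) (g k)) {r i : ℕ} (hb : ∀ k, b k ≤ r)
    (h : ∀ j, j + 1 = i → LKS b (syz g) (r + 1) j) :
    LKS a (Submodule.span (MvPolynomial V K) (Set.range g)) r i := by
  intro e he z hz hkz
  have hlift : ∀ σ, ∃ y : Fin n → MvPolynomial V K, (σ.card ≠ i → y = 0) ∧
      HomS b (e + 1) y ∧ ∑ k, y k • g k = z σ := by
    intro σ
    by_cases hσ : σ.card = i
    · obtain ⟨y, hy1, hy2⟩ := liftS hg (hz σ).2.1 (hz σ).2.2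
      exact ⟨y, fun h => absurd hσ h, hy1, hy2⟩
    · refine ⟨0, fun _ => rfl, homS_zero _ _, ?_⟩
      rw [(hz σ).1 hσ]
      simp
  choose z' hz1 hz2 hz3 using hlift
  have hz'z : (fun σ => ∑ k, z' σ k • g k) = z := funext hz3
  have hzero : ∀ τ, ∑ k, kbd z' τ k • g k = 0 := by
    intro τ
    rw [← kbd_comb', hz'z, hkz]
    rfl
  have hcard : ∀ τ : Finset V, τ.card + 1 ≠ i → kbd z' τ = 0 := by
    intro τ hτ
    funext k
    unfold kbd
    refine Finset.sum_eq_zero fun v hv => ?_
    rw [Finset.mem_compl] at hv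
    rw [hz1 (insert v τ) (by rw [Finset.card_insert_of_notMem hv]; exact hτ), Pi.zero_apply,
      mul_zero]
  obtain ⟨w, hw1, hw2⟩ : ∃ w, KChS b (syz g) i (e + 1) w ∧ kbd w = kbd z' := by
    rcases Nat.eq_zero_or_pos i with hi | hi
    · refine ⟨0, fun σ => ⟨fun _ => rfl, Submodule.zero_mem _, homS_zero _ _⟩, ?_⟩
      have h1 : kbd z' = 0 := by
        funext τ
        exact hcard τ (by omega)
      rw [h1, kbd_zero']
    · obtain ⟨j, rfl⟩ : ∃ j, i = j + 1 := ⟨i - 1, by omega⟩
      refine h j rfl (e + 1) (by omega) (kbd z') ?_ (kbd_kbd z')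
      intro τ
      refine ⟨fun hτ => hcard τ (by omega), ?_, homS_kbd hz2 τ⟩
      rw [mem_syz]
      exact hzero τ
  have hch : KChS b ⊤ i (e + 1) (z' - w) := by
    intro σ
    refine ⟨fun hσ => ?_, Submodule.mem_top, homS_sub (hz2 σ) (hw1 σ).2.2⟩
    rw [Pi.sub_apply, hz1 σ hσ, (hw1 σ).1 hσ, sub_zero]
  have hcy : kbd (z' - w) = 0 := by
    rw [kbd_sub', hw2, sub_self]
  obtain ⟨y, hy1, hy2⟩ := exS hch hcy (fun _ k => (hb k).trans he)
  refine ⟨fun σ => ∑ k, y σ k • g k, ?_, ?_⟩
  · intro σ
    refine ⟨fun hσ => ?_, ?_, homS_comb hg (hy1 σ).2.2⟩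
    · show ∑ k, y σ k • g k = 0
      rw [(hy1 σ).1 hσ]
      simp
    · rw [Submodule.mem_span_range_iff_exists_fun]
      exact ⟨y σ, rfl⟩
  · funext τ
    rw [kbd_comb', hy2]
    have h1 : ∑ k, w τ k • g k = 0 := (mem_syz g (w τ)).1 (hw1 τ).2.1
    rw [← hz3 τ]
    simp only [Pi.sub_apply, sub_smul, Finset.sum_sub_distrib, h1, sub_zero]

end shifts

/-- a graded free resolution with degrees `≤ r + i` in step `i` bounds the Koszul homology -/
theorem kos_of_res {J : Ideal (MvPolynomial V K)} {r : ℕ} (b : ℕ → ℕ) (deg : ∀ i, Fin (b i) → ℕ)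
    (g : Fin (b 0) → MvPolynomial V K)
    (d : ∀ i, Matrix (Fin (b i)) (Fin (b (i + 1))) (MvPolynomial V K))
    (hJ : Ideal.span (Set.range g) = J) (hg : ∀ k, (g k).IsHomogeneous (deg 0 k))
    (hd : ∀ i s c, d i s c = 0 ∨
      (deg i s ≤ deg (i + 1) c ∧ (d i s c).IsHomogeneous (deg (i + 1) c - deg i s)))
    (h0 : ∀ v : Fin (b 0) → MvPolynomial V K, ∑ k, g k * v k = 0 ↔ ∃ w, (d 0).mulVec w = v)
    (h1 : ∀ i (v : Fin (b (i + 1)) → MvPolynomial V K),
      (d i).mulVec v = 0 ↔ ∃ w, (d (i + 1)).mulVec w = v)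
    (hdeg : ∀ i k, deg i k ≤ r + i) : ∀ i, LinKosAt (ofIdeal J) r i := by
  -- the columns
  have hcol : ∀ i, ∀ c, HomS (deg i) (deg (i + 1) c) (fun s => d i s c) := by
    intro i c
    exact homS_of fun s => hd i s c
  have hmul : ∀ i (w : Fin (b (i + 1)) → MvPolynomial V K),
      (d i).mulVec w = ∑ c, w c • (fun s => d i s c) := by
    intro i w
    funext s
    rw [comb_apply' (ι := Fin (b i)) (fun c s => d i s c) w s]
    show ∑ c, d i s c * w c = _
    exact Finset.sum_congr rfl fun c _ => mul_comm _ _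
  have hsyz : ∀ i, syz (fun c s => d i s c) =
      Submodule.span (MvPolynomial V K) (Set.range (fun c s => d (i + 1) s c)) := by
    intro i
    ext v
    rw [mem_syz, ← hmul, h1, Submodule.mem_span_range_iff_exists_fun]
    exact exists_congr fun w => by rw [hmul]
  have hsyz0 : syz (fun k (_ : Unit) => g k) =
      Submodule.span (MvPolynomial V K) (Set.range (fun c s => d 0 s c)) := by
    ext v
    rw [mem_syz, Submodule.mem_span_range_iff_exists_fun]
    have e1 : (∑ k, v k • (fun (_ : Unit) => g k)) = 0 ↔ ∑ k, g k * v k = 0 := by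
      constructor
      · intro h
        have h2 := congrFun h ()
        rw [comb_apply' (ι := Unit) (fun k (_ : Unit) => g k) v (), Pi.zero_apply] at h2
        rw [← h2]
        exact Finset.sum_congr rfl fun k _ => mul_comm _ _
      · intro h
        funext u
        rw [comb_apply' (ι := Unit) (fun k (_ : Unit) => g k) v u, Pi.zero_apply, ← h]
        exact Finset.sum_congr rfl fun k _ => mul_comm _ _
    rw [e1, h0]
    exact exists_congr fun w => by rw [hmul]
  -- all the syzygy modules
  have key : ∀ i j, LKS (deg j)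
      (Submodule.span (MvPolynomial V K) (Set.range (fun c s => d j s c))) (r + j + 1) i := by
    intro i
    induction i with
    | zero =>
        intro j
        refine convS (hcol j) (fun k => ?_) (fun j h => absurd h (by omega))
        have := hdeg (j + 1) k
        omega
    | succ i ih =>
        intro j
        refine convS (hcol j) (fun k => ?_) (fun j' h => ?_)
        · have := hdeg (j + 1) k
          omega
        · obtain rfl : j' = i := by omega
          rw [hsyz]
          exact ih (j + 1)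
  have hspan : Submodule.span (MvPolynomial V K) (Set.range (fun k (_ : Unit) => g k)) =
      ofIdeal J := by
    ext f
    rw [mem_ofIdeal, ← hJ, Submodule.mem_span_range_iff_exists_fun, Ideal.span,
      Submodule.mem_span_range_iff_exists_fun]
    refine exists_congr fun v => ?_
    constructor
    · intro h
      rw [← h, comb_apply' (ι := Unit) (fun k (_ : Unit) => g k) v ()]
      rfl
    · intro h
      funext u
      rw [comb_apply' (ι := Unit) (fun k (_ : Unit) => g k) v u, ← h]
      rfl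
  have main : ∀ i, LKS (fun _ => 0) (ofIdeal J) r i := by
    intro i
    rw [← hspan]
    refine convS (b := deg 0) (fun k => homS_unit.2 fun _ => hg k) (fun k => hdeg 0 k) ?_
    intro j _
    rw [hsyz0]
    exact key j 0
  intro i e he z hz hkz
  obtain ⟨w, hw, hw2⟩ := main i e he z
    (fun σ => ⟨(hz σ).1, (hz σ).2.1, homS_unit.2 (hz σ).2.2⟩) hkz
  exact ⟨w, fun σ => ⟨(hw σ).1, (hw σ).2.1, homS_unit.1 (hw σ).2.2⟩, hw2⟩

end Pool.Agent.RG
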